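import Pool.Agent.N303.LS.Stm3

/-!
# Project LM (helper303), SOB: Sobolev's inequality in time (helper94)
-/

set_option autoImplicit false

namespace Pool.Agent.N94.LS

open MeasureTheory Set
open scoped ENNReal InnerProductSpace

theorem sob_pow {x q : ℝ} (hx : 0 ≤ x) (hq : 2 ≤ q) : x * (x ^ 2) ^ (q / 2 - 1) = x ^ (q - 1) := by
  rcases hx.eq_or_lt with h | h
  · rw [← h, zero_mul, Real.zero_rpow (by linarith)]
  · rw [← Real.rpow_natCast x 2, ← Real.rpow_mul hx]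
    nth_rewrite 1 [← Real.rpow_one x]
    rw [← Real.rpow_add h]
    congr 1
    push_cast
    ring

theorem sob_sq {x q : ℝ} (hx : 0 ≤ x) : (x ^ 2) ^ (q / 2) = x ^ q := by
  rw [← Real.rpow_natCast x 2, ← Real.rpow_mul hx]
  congr 1
  push_cast
  ring

/-- the derivative -/
theorem sob_deriv {q : ℝ} (hq : 2 ≤ q) {F F' : ℝ → ℂ} (h : ∀ t, HasDerivAt F (F' t) t) (t : ℝ) :
    HasDerivAt (fun s => ‖F s‖ ^ q)
      ((2 * ⟪F t, F' t⟫_ℝ) * (q / 2) * (‖F t‖ ^ 2) ^ (q / 2 - 1)) t := by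
  have h1 : HasDerivAt (fun s => ‖F s‖ ^ 2) (2 * ⟪F t, F' t⟫_ℝ) t := (h t).norm_sq
  have h2 := h1.rpow_const (p := q / 2) (Or.inr (by linarith))
  have e : (fun s => (‖F s‖ ^ 2) ^ (q / 2)) = fun s => ‖F s‖ ^ q := by
    funext s
    exact sob_sq (norm_nonneg _)
  rw [e] at h2
  exact h2

theorem sob_bound {q : ℝ} (hq : 2 ≤ q) (z w : ℂ) :
    |(2 * ⟪z, w⟫_ℝ) * (q / 2) * (‖z‖ ^ 2) ^ (q / 2 - 1)| ≤ q * (‖z‖ ^ (q - 1) * ‖w‖) := by
  have h1 : |⟪z, w⟫_ℝ| ≤ ‖z‖ * ‖w‖ := abs_real_inner_le_norm z w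
  have h2 : 0 ≤ (‖z‖ ^ 2) ^ (q / 2 - 1) := Real.rpow_nonneg (by positivity) _
  rw [abs_mul, abs_mul, abs_mul, abs_of_nonneg h2, abs_of_nonneg (by linarith : (0 : ℝ) ≤ q / 2),
    abs_of_nonneg (by norm_num : (0 : ℝ) ≤ 2)]
  calc 2 * |⟪z, w⟫_ℝ| * (q / 2) * (‖z‖ ^ 2) ^ (q / 2 - 1) ≤
        2 * (‖z‖ * ‖w‖) * (q / 2) * (‖z‖ ^ 2) ^ (q / 2 - 1) := by
        apply mul_le_mul_of_nonneg_right _ h2
        apply mul_le_mul_of_nonneg_right _ (by linarith)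
        linarith
    _ = q * ((‖z‖ * (‖z‖ ^ 2) ^ (q / 2 - 1)) * ‖w‖) := by ring
    _ = q * (‖z‖ ^ (q - 1) * ‖w‖) := by rw [sob_pow (norm_nonneg _) hq]

theorem sob_real {q : ℝ} (hq : 2 ≤ q) {F F' : ℝ → ℂ} (hc : Continuous F')
    (h : ∀ t, HasDerivAt F (F' t) t) {t : ℝ} (ht : t ∈ Icc (0 : ℝ) 2) :
    ‖F t‖ ^ q ≤ q * ((∫ s in (0 : ℝ)..2, ‖F s‖ ^ q) +
      ∫ s in (0 : ℝ)..2, ‖F s‖ ^ (q - 1) * ‖F' s‖) := by
  have hF : Continuous F := continuous_iff_continuousAt.2 fun t => (h t).continuousAt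
  have hn : Continuous fun s => ‖F s‖ := hF.norm
  have hG : Continuous fun s => ‖F s‖ ^ q := hn.rpow_const fun s => Or.inr (by linarith)
  have hJ : Continuous fun s => ‖F s‖ ^ (q - 1) * ‖F' s‖ :=
    (hn.rpow_const fun s => Or.inr (by linarith)).mul hc.norm
  have hG' : Continuous fun s => (2 * ⟪F s, F' s⟫_ℝ) * (q / 2) * (‖F s‖ ^ 2) ^ (q / 2 - 1) := by
    refine ((continuous_const.mul (hF.inner hc)).mul continuous_const).mul ?_
    exact (hn.pow 2).rpow_const fun s => Or.inr (by linarith)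
  have hJ0 : ∀ s, 0 ≤ ‖F s‖ ^ (q - 1) * ‖F' s‖ := fun s =>
    mul_nonneg (Real.rpow_nonneg (norm_nonneg _) _) (norm_nonneg _)
  obtain ⟨J, hJd⟩ : ∃ J, J = ∫ s in (0 : ℝ)..2, ‖F s‖ ^ (q - 1) * ‖F' s‖ := ⟨_, rfl⟩
  have hJn : 0 ≤ J := by
    rw [hJd]
    exact intervalIntegral.integral_nonneg (by norm_num) fun s _ => hJ0 s
  have key : ∀ t0 ∈ Icc (0 : ℝ) 2, ‖F t‖ ^ q ≤ ‖F t0‖ ^ q + q * J := by
    intro t0 ht0
    have h1 : ∫ s in t0..t, (2 * ⟪F s, F' s⟫_ℝ) * (q / 2) * (‖F s‖ ^ 2) ^ (q / 2 - 1) =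
        ‖F t‖ ^ q - ‖F t0‖ ^ q :=
      intervalIntegral.integral_eq_sub_of_hasDerivAt (fun s _ => sob_deriv hq h s)
        (hG'.intervalIntegrable _ _)
    have h2 : |∫ s in t0..t, (2 * ⟪F s, F' s⟫_ℝ) * (q / 2) * (‖F s‖ ^ 2) ^ (q / 2 - 1)| ≤ q * J := by
      rw [← Real.norm_eq_abs]
      refine (intervalIntegral.norm_integral_le_integral_norm_uIoc).trans ?_
      have h3 : ∫ s in uIoc t0 t, ‖(2 * ⟪F s, F' s⟫_ℝ) * (q / 2) * (‖F s‖ ^ 2) ^ (q / 2 - 1)‖ ≤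
          ∫ s in uIoc t0 t, q * (‖F s‖ ^ (q - 1) * ‖F' s‖) := by
        refine setIntegral_mono ?_ ?_ fun s => ?_
        · exact (hG'.norm.integrableOn_Icc (a := min t0 t) (b := max t0 t)).mono_set
            uIoc_subset_uIcc
        · exact ((continuous_const.mul hJ).integrableOn_Icc (a := min t0 t) (b := max t0 t)).mono_set
            uIoc_subset_uIcc
        · rw [Real.norm_eq_abs]
          exact sob_bound hq _ _
      refine h3.trans ?_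
      rw [integral_const_mul]
      refine mul_le_mul_of_nonneg_left ?_ (by linarith)
      rw [hJd, intervalIntegral.integral_of_le (by norm_num)]
      have hsub : uIoc t0 t ⊆ Ioc (0 : ℝ) 2 := by
        intro s hs
        rw [uIoc, mem_Ioc] at hs
        rw [mem_Icc] at ht ht0
        exact ⟨lt_of_le_of_lt (le_min ht0.1 ht.1) hs.1, hs.2.trans (max_le ht0.2 ht.2)⟩
      exact setIntegral_mono_set (hJ.integrableOn_Icc.mono_set Ioc_subset_Icc_self)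
        (Filter.Eventually.of_forall hJ0) hsub.eventuallyLE
    rw [h1] at h2
    have := (abs_le.1 h2).2
    linarith
  have h4 : ∫ t0 in (0 : ℝ)..2, ‖F t‖ ^ q ≤ ∫ t0 in (0 : ℝ)..2, (‖F t0‖ ^ q + q * J) :=
    intervalIntegral.integral_mono_on (by norm_num) (by simp)
      ((hG.add continuous_const).intervalIntegrable _ _) key
  rw [intervalIntegral.integral_const, intervalIntegral.integral_add (hG.intervalIntegrable _ _)
    (by simp), intervalIntegral.integral_const, smul_eq_mul, smul_eq_mul] at h4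
  rw [← hJd]
  have h5 : 0 ≤ ∫ s in (0 : ℝ)..2, ‖F s‖ ^ q :=
    intervalIntegral.integral_nonneg (by norm_num) fun s _ => Real.rpow_nonneg (norm_nonneg _) _
  nlinarith

/-- **(SOB)** -/
theorem t_sob : Pool.Agent.N303.LS.S_SOB := by
  intro q hq
  refine ⟨q, by linarith, ?_⟩
  intro F F' hc h
  have hq0 : 0 < q := by linarith
  have hF : Continuous F := continuous_iff_continuousAt.2 fun t => (h t).continuousAt
  have hn : Continuous fun s => ‖F s‖ := hF.norm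
  have hG : Continuous fun s => ‖F s‖ ^ q := hn.rpow_const fun s => Or.inr (by linarith)
  have hJ : Continuous fun s => ‖F s‖ ^ (q - 1) * ‖F' s‖ :=
    (hn.rpow_const fun s => Or.inr (by linarith)).mul hc.norm
  have e1 : ∫⁻ t in Icc (0 : ℝ) 2, ‖F t‖ₑ ^ q = ENNReal.ofReal (∫ s in (0 : ℝ)..2, ‖F s‖ ^ q) := by
    rw [intervalIntegral.integral_of_le (by norm_num), ← integral_Icc_eq_integral_Ioc,
      ofReal_integral_eq_lintegral_ofReal hG.integrableOn_Icc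
        (Filter.Eventually.of_forall fun s => Real.rpow_nonneg (norm_nonneg _) _)]
    refine lintegral_congr fun s => ?_
    rw [← ofReal_norm, ENNReal.ofReal_rpow_of_nonneg (norm_nonneg _) hq0.le]
  have e2 : ∫⁻ t in Icc (0 : ℝ) 2, ‖F t‖ₑ ^ (q - 1) * ‖F' t‖ₑ =
      ENNReal.ofReal (∫ s in (0 : ℝ)..2, ‖F s‖ ^ (q - 1) * ‖F' s‖) := by
    rw [intervalIntegral.integral_of_le (by norm_num), ← integral_Icc_eq_integral_Ioc,
      ofReal_integral_eq_lintegral_ofReal hJ.integrableOn_Icc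
        (Filter.Eventually.of_forall fun s =>
          mul_nonneg (Real.rpow_nonneg (norm_nonneg _) _) (norm_nonneg _))]
    refine lintegral_congr fun s => ?_
    rw [← ofReal_norm, ← ofReal_norm,
      ENNReal.ofReal_rpow_of_nonneg (norm_nonneg _) (by linarith),
      ENNReal.ofReal_mul (Real.rpow_nonneg (norm_nonneg _) _)]
  have h5 : 0 ≤ ∫ s in (0 : ℝ)..2, ‖F s‖ ^ q :=
    intervalIntegral.integral_nonneg (by norm_num) fun s _ => Real.rpow_nonneg (norm_nonneg _) _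
  have h6 : 0 ≤ ∫ s in (0 : ℝ)..2, ‖F s‖ ^ (q - 1) * ‖F' s‖ :=
    intervalIntegral.integral_nonneg (by norm_num) fun s _ =>
      mul_nonneg (Real.rpow_nonneg (norm_nonneg _) _) (norm_nonneg _)
  rw [e1, e2, ← ENNReal.ofReal_add h5 h6, ← ENNReal.ofReal_mul hq0.le]
  obtain ⟨B, hB⟩ : ∃ B, B = ENNReal.ofReal (q * ((∫ s in (0 : ℝ)..2, ‖F s‖ ^ q) +
      ∫ s in (0 : ℝ)..2, ‖F s‖ ^ (q - 1) * ‖F' s‖)) := ⟨_, rfl⟩
  rw [← hB]
  have h7 : (⨆ t ∈ Icc (0 : ℝ) 2, ‖F t‖ₑ) ≤ B ^ q⁻¹ := by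
    refine iSup₂_le fun t ht => ?_
    rw [← ENNReal.rpow_le_rpow_iff hq0, ENNReal.rpow_inv_rpow hq0.ne', ← ofReal_norm,
      ENNReal.ofReal_rpow_of_nonneg (norm_nonneg _) hq0.le, hB]
    exact ENNReal.ofReal_le_ofReal (sob_real hq hc h ht)
  calc (⨆ t ∈ Icc (0 : ℝ) 2, ‖F t‖ₑ) ^ q ≤ (B ^ q⁻¹) ^ q := ENNReal.rpow_le_rpow h7 hq0.le
    _ = B := ENNReal.rpow_inv_rpow hq0.ne' B

end Pool.Agent.N94.LS
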